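import Mathlib

open Finset Nat

namespace Pool.Agent.Results.MP_e5500d_nt.Both

/-- The sequence `S_n`. -/
def S (n : ℕ) : ℤ :=
  ∑ k ∈ range (n - 2), (-1) ^ k * (2 * k).choose k * (n - 3).choose k * k.choose (n - 3 - k)

/-- The sequence `T_m`. -/
def T (m : ℕ) : ℤ := S (m + 2) + 12 * S (m + 1) + 16 * S m

/-- The sum `A(N)`. -/
def A (N : ℕ) : ℚ := ∑ k ∈ Icc 1 N, (-1) ^ k * (T k : ℚ) / k

def r (z : ℤ) : ℚ := if z < 0 then 0 else ((z.toNat ! : ℕ) : ℚ)⁻¹

lemma r_nat (n : ℕ) : r n = (n ! : ℚ)⁻¹ := by simp [r]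

lemma r_neg {z : ℤ} (h : z < 0) : r z = 0 := if_pos h

lemma r_step (z w : ℤ) (h : w = z + 1) : r z = w * r w := by
  subst h
  rcases lt_trichotomy z (-1) with h | rfl | h
  · rw [r_neg (by omega), r_neg (by omega), mul_zero]
  · simp [r]
  · obtain ⟨n, rfl⟩ := Int.eq_ofNat_of_zero_le (by omega : 0 ≤ z)
    have := r_nat (n + 1)
    push_cast at this ⊢
    rw [this, r_nat, factorial_succ]
    push_cast
    field_simp

lemma ch (a b : ℕ) : (a.choose b : ℚ) = a ! * r b * r (a - b) := by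
  rcases le_or_gt b a with h | h
  · rw [cast_choose ℚ h, ← Nat.cast_sub h, r_nat, r_nat]; field_simp
  · rw [choose_eq_zero_of_lt h, r_neg (z := a - b) (by omega)]; simp

lemma ch2 (n k x y : ℕ) (h : x < y → n < k) :
    (n.choose k : ℚ) * k.choose (x - y) = n ! * r (n - k) * r (x - y) * r (k - (x - y)) := by
  rcases le_or_gt y x with h1 | h1
  · rw [ch, ch, Nat.cast_sub h1, r_nat k]; field_simp
  · rw [choose_eq_zero_of_lt (h h1), r_neg (z := x - y) (by omega)]; simp

def s (n k : ℕ) : ℤ := (-1) ^ k * (2 * k).choose k * n.choose k * k.choose (n - k)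

def b (n k : ℕ) : ℤ := 2 * (-1) ^ k * catalan k *
  (n.choose k * k.choose (n - k) - n.choose (k + 1) * (k + 1).choose (n + 1 - k))

def G (m k : ℕ) : ℚ := (2 * k ^ 2 - 2 * (m + 3) * k + (m + 2) * (m + 3)) * (-1) ^ k *
  centralBinom k * m ! * r (m + 2 - k) ^ 2 * r (2 * k - m - 2)

lemma term (m k : ℕ) : ((m + 3) ^ 2 * b (m + 1) k + (m + 3) * (m + 2) * b m k -
    (s (m + 2) k + 12 * s (m + 1) k + 16 * s m k) : ℚ) = G m (k + 1) - G m k := by
  have c1 : (centralBinom k : ℚ) = (k + 1) * catalan k := by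
    exact_mod_cast (succ_mul_catalan_eq_centralBinom k).symm
  have c2 : (centralBinom (k + 1) : ℚ) = 2 * (2 * k + 1) * catalan k := by
    have : ((k : ℚ) + 1) * centralBinom (k + 1) = 2 * (2 * k + 1) * centralBinom k := by
      exact_mod_cast succ_mul_centralBinom_succ k
    refine mul_left_cancel₀ (by positivity : (k : ℚ) + 1 ≠ 0) ?_
    rw [this, c1]; ring
  have a1 := r_step (m + 1 - k) (m + 2 - k) (by ring)
  have a2 := r_step (m - k) (m + 1 - k) (by ring)
  have a3 := r_step (m - (k + 1)) (m - k) (by ring)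
  have b1 := r_step (2 * k - m - 1) (2 * k - m) (by ring)
  have b2 := r_step (2 * k - m - 2) (2 * k - m - 1) (by ring)
  simp only [s, b, G, ← centralBinom_eq_two_mul_choose, mul_assoc]
  push_cast
  rw [ch2 _ k _ k id, ch2 _ k _ k id, ch2 _ k _ k id, ch2 _ _ _ k (by omega),
    ch2 _ _ _ k (by omega), c1, c2]
  push_cast [factorial_succ] at *
  rw [show (k : ℤ) - (m + 1 - k) = 2 * k - m - 1 by ring,
    show (k : ℤ) - (m - k) = 2 * k - m by ring,
    show (k : ℤ) - (m + 2 - k) = 2 * k - m - 2 by ring,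
    show (k : ℤ) + 1 - (m + 1 + 1 - k) = 2 * k - m - 1 by ring,
    show (k : ℤ) + 1 - (m + 1 - k) = 2 * k - m by ring,
    show (m : ℤ) + 1 - (k + 1) = m - k by ring,
    show (m : ℤ) + 1 + 1 - k = m + 2 - k by ring,
    show (m : ℤ) + 2 - (k + 1) = m + 1 - k by ring,
    show 2 * ((k : ℤ) + 1) - m - 2 = 2 * k - m by ring, a3, a2, a1, b2, b1]
  ring

def B (n : ℕ) : ℤ := ∑ k ∈ range (n + 1), b n k

lemma ext (f : ℕ → ℤ) (n j : ℕ) (h : ∀ k, n < k → f k = 0) :
    ∑ k ∈ range (n + 1 + j), f k = ∑ k ∈ range (n + 1), f k := by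
  rw [sum_range_add, sum_eq_zero (s := range j) fun k _ => h _ (by omega), add_zero]

lemma key (m : ℕ) : ((m + 3) ^ 2 * B (m + 1) + (m + 3) * (m + 2) * B m : ℚ) = T (m + 3) := by
  have hs (n k) (h : n < k) : s n k = 0 := by simp [s, choose_eq_zero_of_lt h]
  have hb (n k) (h : n < k) : b n k = 0 := by
    simp [b, choose_eq_zero_of_lt h, choose_eq_zero_of_lt (h.trans k.lt_succ_self)]
  have e : T (m + 3) = ∑ k ∈ range (m + 3), s (m + 2) k +
      12 * ∑ k ∈ range (m + 1 + 1), s (m + 1) k + 16 * ∑ k ∈ range (m + 1), s m k := rfl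
  have := sum_range_sub (G m) (m + 3)
  rw [← sum_congr rfl fun k _ => term m k, G, G, r_neg (by omega),
    r_neg (z := 2 * (0 : ℕ) - m - 2) (by omega)] at this
  rw [e, B, B, ← ext _ _ 1 (hs (m + 1)), ← ext _ _ 2 (hs m), ← ext _ _ 1 (hb (m + 1)),
    ← ext _ m 2 (hb _)]
  simp only [sum_sub_distrib, sum_add_distrib, ← mul_sum] at this
  push_cast
  linear_combination this

lemma A_eq (m : ℕ) : A (m + 2) = (-1) ^ m * (m + 2) * B m := by
  induction m with
  | zero => decide +kernel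
  | succ m ih =>
    rw [A, sum_Icc_succ_top (by omega), ← A, ih, ← key]
    push_cast
    field_simp
    ring

lemma B_mod (h : ℕ) (hp : (2 * (h + 1) + 1).Prime) :
    ((B (2 * h + 1) : ℤ) : ZMod (2 * (h + 1) + 1)) = 2 * (-1) ^ (h + 1) := by
  have z {a : ℕ} := (ZMod.natCast_eq_zero_iff a (2 * (h + 1) + 1)).2
  have c (k) (hk : k ≤ 2 * (h + 1)) :
      (((2 * (h + 1)).choose k : ℕ) : ZMod (2 * (h + 1) + 1)) = (-1) ^ k := by
    induction k with
    | zero => simp
    | succ k ih =>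
      have := z (hp.dvd_choose_self k.succ_ne_zero (by omega))
      rw [choose_succ_succ, Nat.cast_add, ih (by omega)] at this
      linear_combination this
  rw [B, Int.cast_sum, sum_eq_single (h + 1) (fun k hk hne => ?_) (fun h => (h (mem_range.2 (by omega))).elim)]
  · have c1 := congrArg (Nat.cast (R := ZMod (2 * (h + 1) + 1)))
      (succ_mul_catalan_eq_centralBinom (h + 1))
    have c2 := congrArg (Nat.cast (R := ZMod (2 * (h + 1) + 1)))
      (choose_succ_right_eq (2 * h + 1) (h + 1))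
    have c3 := c (h + 1) (by omega)
    have c4 := z dvd_rfl
    rw [centralBinom, c3] at c1
    rw [mul_add, mul_one, choose_succ_succ, ← choose_symm_half] at c3
    rw [show 2 * h + 1 - (h + 1) = h by omega] at c2
    rw [b, show 2 * h + 1 - (h + 1) = h by omega, show 2 * h + 1 + 1 - (h + 1) = h + 1 by omega,
      choose_succ_self_right, choose_succ_self_right]
    have c5 : ((-1 : ZMod (2 * (h + 1) + 1)) ^ (h + 1)) ^ 2 = 1 := by
      rw [← pow_mul, pow_mul']; simp
    push_cast at *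
    generalize (catalan (h + 1) : ZMod (2 * (h + 1) + 1)) = K at *
    generalize (-1 : ZMod (2 * (h + 1) + 1)) ^ (h + 1) = e at *
    linear_combination -2 * e * K * c2 + e * K * c3 + K * c5 + 2 * c1 - K * c4
  · rcases lt_or_gt_of_ne hne with h1 | h1
    · simp [b, choose_eq_zero_of_lt (show k < 2 * h + 1 - k by omega),
        choose_eq_zero_of_lt (show k + 1 < 2 * h + 1 + 1 - k by omega)]
    · have := mem_range.1 hk
      have h2 := hp.dvd_choose_add (a := k) (b := k) (by omega) (by omega) (by omega)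
      rw [← two_mul, ← centralBinom, ← succ_mul_catalan_eq_centralBinom] at h2
      have h3 := (hp.dvd_mul.1 h2).resolve_left fun h => by have := le_of_dvd k.succ_pos h; omega
      simp [b, z h3]

theorem result : (∀ n, 1 ≤ n → ∃ z : ℤ, A n = n * z) ∧
    ∀ p : ℕ, p.Prime → Odd p → ∃ z : ℤ, A p = 2 * p * (-1) ^ ((p + 1) / 2) + p ^ 2 * z := by
  refine ⟨fun n hn => ?_, fun p hp ⟨k, hk⟩ => ?_⟩
  · rcases hn.eq_or_lt with rfl | hn
    · exact ⟨-1, by decide +kernel⟩
    · obtain ⟨m, rfl⟩ := Nat.exists_eq_add_of_le' hn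
      exact ⟨(-1) ^ m * B m, by rw [A_eq]; push_cast; ring⟩
  · obtain ⟨h, rfl⟩ : ∃ h, k = h + 1 := ⟨k - 1, by have := hp.two_le; omega⟩
    subst hk
    obtain ⟨z, hz⟩ := (ZMod.intCast_eq_intCast_iff_dvd_sub (B (2 * h + 1)) (2 * (-1) ^ (h + 1))
      _).1 (by rw [B_mod h hp]; simp)
    refine ⟨z, ?_⟩
    have hz' := congrArg (Int.cast (R := ℚ)) hz
    rw [show 2 * (h + 1) + 1 = 2 * h + 1 + 2 by ring, A_eq,
      show (2 * h + 1 + 2 + 1) / 2 = h + 1 + 1 by omega, pow_succ, pow_mul]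
    push_cast at *
    linear_combination (2 * h + 3) * hz'

end Pool.Agent.Results.MP_e5500d_nt.Both
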